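import Pool.Agent.Helper78.DT.Goals3

/-!
# Project DT (MP_34c247_lc), packet TOT: the total error
-/

namespace Pool.Agent.Helper42.DT

open Pool.Agent.Helper78.DT
open scoped Classical

theorem tot (hD : DlmStmt) (hA : ToaStmt) (hB : TobStmt) : TotStmt := by
  intro α _ A x W K t e P R d q k s η κ δ hP hR hK hKP hq hqP hm hd hδ h16 hts hη hη1 hκ hpow
  obtain ⟨f, hf1, hf2, hf3⟩ := hD α A x W
  have hne : Nonempty (Fin (t + 2) → Fin P) := ⟨fun _ => ⟨0, hP.pos⟩⟩
  -- the inner probabilities
  set p1 : (Fin (t + 2) → Fin P) → ℝ := fun A' =>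
    pr (fun z : (Fin d → Fin R) × (Fin K → Fin (q * P)) =>
      res A x W K t (pt P K t e (ext A'))
        (cut (A.m x) (cn R P K t e d (ext A') (ext z.1) (ext z.2))) = true) with hp1
  set p2 : (Fin (t + 2) → Fin P) → ℝ := fun A' =>
    pr (fun b : Fin (A.m x) → Bool =>
      ev (f.filter (bal K t (pt P K t e (ext A')))) b = true) with hp2
  set E2 : ℝ := 2 * (2 * (2 * (P : ℝ) + 1) ^ t + 1) ^ s * (1 / 4) ^ k + K * er P t s e η κ δ with hE2
  have h12 : ∀ A', |p1 A' - p2 A'| ≤ E2 := by
    intro A'
    have h1 := hA (A.m x) K t e P R d q k s η κ δ hP hR hK hq hqP hm hd hδ h16 hts hη hη1 hκ hpow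
      (pt P K t e (ext A')) (fun v => Nat.mod_lt _ hK) (f.filter (bal K t (pt P K t e (ext A'))))
      (by
        intro g hg j hj
        have h2 := (List.mem_filter.1 hg).2
        simp only [bal, decide_eq_true_eq] at h2
        exact h2 j hj)
    have h3 : p1 A' = pr (fun z : (Fin d → Fin R) × (Fin K → Fin (q * P)) =>
        ev (f.filter (bal K t (pt P K t e (ext A')))) (fun v => hb R P d (ext z.1)
          (ext z.2 (pt P K t e (ext A') v) / P)
          (hs P e (ext z.2 (pt P K t e (ext A') v) % P) v)) = true) := by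
      rw [hp1]
      refine pr_congr fun z => ?_
      rw [hf2]
      have h4 : cut (A.m x) (cn R P K t e d (ext A') (ext z.1) (ext z.2)) =
          cf (fun v : Fin (A.m x) => hb R P d (ext z.1)
            (ext z.2 (pt P K t e (ext A') v) / P)
            (hs P e (ext z.2 (pt P K t e (ext A') v) % P) v)) := by
        funext j
        unfold cut cf cn
        by_cases hj : j < A.m x
        · simp [hj]
        · simp [hj]
      rw [h4]
    rw [h3]
    exact h1
  have e1 : pr (fun z : (Fin (t + 2) → Fin P) × (Fin d → Fin R) × (Fin K → Fin (q * P)) =>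
      res A x W K t (pt P K t e (ext z.1))
        (cut (A.m x) (cn R P K t e d (ext z.1) (ext z.2.1) (ext z.2.2))) = true) = av p1 := by
    unfold pr
    rw [av_prod]
    rfl
  have e2 : pr (fun z : (Fin (t + 2) → Fin P) × (Fin (A.m x) → Bool) =>
      ev (f.filter (bal K t (pt P K t e (ext z.1)))) z.2 = true) = av p2 := by
    unfold pr
    rw [av_prod]
    rfl
  have h5 : |av p1 - av p2| ≤ E2 := by
    rw [← av_sub]
    refine (abs_av_le _).trans ((av_mono h12).trans ?_)
    rw [av_const]
  have h6 := hB (A.m x) P K t e W hP hK hKP hm f hf1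
  rw [e2] at h6
  rw [e1]
  rw [abs_le] at h5 h6 hf3 ⊢
  constructor <;> linarith [h5.1, h5.2, h6.1, h6.2, hf3.1, hf3.2]

end Pool.Agent.Helper42.DT
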